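import Mathlib
import Pool.Agent.V8H14.MHA.Final

/-!
# The magnitude homology of a real hyperplane arrangement is free
-/

set_option autoImplicit false

namespace Pool.Agent.Results.MP_95f31c_co.TorsionFree

open Pool.Agent.R142.Arr Pool.Agent.R142.MagHom

/-- Q1 holds: all the groups `MH_{k,l}(A)` are free abelian of finite rank; in particular they have
no nonzero element of finite order. -/
theorem result : ∀ (d : ℕ) (A : Finset (Submodule ℝ (Fin d → ℝ))), IsArrangement A →
    ∀ k l : ℕ, Module.Free ℤ (MH (topeGraph A) k l) ∧ Module.Finite ℤ (MH (topeGraph A) k l) ∧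
      ∀ (n : ℤ) (a : MH (topeGraph A) k l), n ≠ 0 → n • a = 0 → a = 0 := by
  intro d A hA k l
  exact Pool.Agent.V8H14.MHA.mh_torsionfree A hA k l

end Pool.Agent.Results.MP_95f31c_co.TorsionFree
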